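import Mathlib

set_option autoImplicit false

namespace Pool.Agent.Results.MP_e96806_co.FinalFall

variable {n : ℕ}

/-- `P` is a partition of `Fin n` into `m` nonempty blocks, none containing a member of `E`. -/
def Good (E : Finset (Finset (Fin n))) (m : ℕ) (P : Finset (Finset (Fin n))) : Prop :=
  P.card = m ∧
  (∀ B ∈ P, B.Nonempty) ∧
  (∀ B ∈ P, ∀ C ∈ P, B ≠ C → Disjoint B C) ∧
  (∀ v : Fin n, ∃ B ∈ P, v ∈ B) ∧
  (∀ B ∈ P, ∀ e ∈ E, ¬ e ⊆ B)

open Classical in
noncomputable def Om (E : Finset (Finset (Fin n))) (m : ℕ) : Finset (Finset (Finset (Fin n))) :=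
  Finset.univ.filter (fun P => Good E m P)

theorem mem_Om {E : Finset (Finset (Fin n))} {m : ℕ} {P : Finset (Finset (Fin n))} :
    P ∈ Om E m ↔ Good E m P := by
  classical
  unfold Om
  simp

theorem sum_card {E : Finset (Finset (Fin n))} {m : ℕ} {P : Finset (Finset (Fin n))}
    (hP : Good E m P) : ∑ B ∈ P, B.card = n := by
  classical
  have h1 : (P.biUnion id).card = ∑ B ∈ P, B.card := by
    rw [Finset.card_biUnion]
    · rfl
    · intro B hB C hC hBC
      exact hP.2.2.1 B hB C hC hBC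
  have h2 : P.biUnion id = Finset.univ := by
    ext v
    simp only [Finset.mem_biUnion, id, Finset.mem_univ, iff_true]
    exact hP.2.2.2.1 v
  rw [← h1, h2, Finset.card_univ, Fintype.card_fin]

open Classical in
/-- ordered pairs of singleton blocks of `Q` that may be merged -/
noncomputable def src (E : Finset (Finset (Fin n))) (Q : Finset (Finset (Fin n))) :
    Finset (Fin n × Fin n) :=
  Finset.univ.filter (fun x => x.1 ≠ x.2 ∧ {x.1} ∈ Q ∧ {x.2} ∈ Q ∧
    ∀ e ∈ E, ¬ e ⊆ {x.1, x.2})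

open Classical in
noncomputable def tgt (P : Finset (Finset (Fin n))) : Finset (Fin n × Fin n) :=
  Finset.univ.filter (fun x => x.1 ≠ x.2 ∧ ({x.1, x.2} : Finset (Fin n)) ∈ P)

theorem merge_good {E : Finset (Finset (Fin n))} {m : ℕ} {Q : Finset (Finset (Fin n))}
    (hQ : Good E (m + 1) Q) {u v : Fin n} (huv : u ≠ v) (hu : {u} ∈ Q) (hv : {v} ∈ Q)
    (hE : ∀ e ∈ E, ¬ e ⊆ {u, v}) :
    Good E m (insert {u, v} ((Q.erase {u}).erase {v})) ∧
      ({u, v} : Finset (Fin n)) ∉ (Q.erase {u}).erase {v} := by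
  classical
  have hvu : ({v} : Finset (Fin n)) ∈ Q.erase {u} := by
    rw [Finset.mem_erase]
    exact ⟨fun h => huv (Finset.singleton_injective h).symm, hv⟩
  have hdis : ∀ C ∈ (Q.erase {u}).erase {v}, Disjoint ({u, v} : Finset (Fin n)) C := by
    intro C hC
    obtain ⟨h1, h2⟩ := Finset.mem_erase.1 hC
    obtain ⟨h3, h4⟩ := Finset.mem_erase.1 h2
    have a1 := hQ.2.2.1 {u} hu C h4 (Ne.symm h3)
    have a2 := hQ.2.2.1 {v} hv C h4 (Ne.symm h1)
    rw [Finset.disjoint_singleton_left] at a1 a2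
    rw [Finset.disjoint_left]
    intro x hx
    rw [Finset.mem_insert, Finset.mem_singleton] at hx
    rcases hx with rfl | rfl
    · exact a1
    · exact a2
  have hn : ({u, v} : Finset (Fin n)) ∉ (Q.erase {u}).erase {v} := by
    intro h
    have h1 := hdis _ h
    rw [disjoint_self, Finset.bot_eq_empty] at h1
    exact (Finset.insert_ne_empty u {v}) h1
  refine ⟨⟨?_, ?_, ?_, ?_, ?_⟩, hn⟩
  · rw [Finset.card_insert_of_notMem hn, Finset.card_erase_of_mem hvu, Finset.card_erase_of_mem hu,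
      hQ.1]
    have h1 : 0 < (Q.erase {u}).card := Finset.card_pos.2 ⟨_, hvu⟩
    rw [Finset.card_erase_of_mem hu, hQ.1] at h1
    omega
  · intro C hC
    rcases Finset.mem_insert.1 hC with rfl | hC
    · exact Finset.insert_nonempty _ _
    · exact hQ.2.1 C (Finset.mem_of_mem_erase (Finset.mem_of_mem_erase hC))
  · intro C hC D hD hCD
    rcases Finset.mem_insert.1 hC with hC | hC
    · rcases Finset.mem_insert.1 hD with hD | hD
      · exact absurd (hC.trans hD.symm) hCD
      · rw [hC]; exact hdis D hD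
    · rcases Finset.mem_insert.1 hD with hD | hD
      · rw [hD]; exact (hdis C hC).symm
      · exact hQ.2.2.1 C (Finset.mem_of_mem_erase (Finset.mem_of_mem_erase hC)) D
          (Finset.mem_of_mem_erase (Finset.mem_of_mem_erase hD)) hCD
  · intro x
    obtain ⟨C, hC, hx⟩ := hQ.2.2.2.1 x
    by_cases h1 : C = {u}
    · subst h1
      rw [Finset.mem_singleton] at hx
      exact ⟨{u, v}, Finset.mem_insert_self _ _, by rw [hx]; exact Finset.mem_insert_self _ _⟩
    · by_cases h2 : C = {v}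
      · subst h2
        rw [Finset.mem_singleton] at hx
        exact ⟨{u, v}, Finset.mem_insert_self _ _, by
          rw [hx]; exact Finset.mem_insert_of_mem (Finset.mem_singleton_self _)⟩
      · exact ⟨C, Finset.mem_insert_of_mem (Finset.mem_erase.2 ⟨h2, Finset.mem_erase.2 ⟨h1, hC⟩⟩), hx⟩
  · intro C hC e he
    rcases Finset.mem_insert.1 hC with rfl | hC
    · exact hE e he
    · exact hQ.2.2.2.2 C (Finset.mem_of_mem_erase (Finset.mem_of_mem_erase hC)) e he

theorem double_count (E : Finset (Finset (Fin n))) (m : ℕ) :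
    ∑ Q ∈ Om E (m + 1), (src E Q).card ≤ ∑ P ∈ Om E m, (tgt P).card := by
  classical
  rw [← Finset.card_sigma, ← Finset.card_sigma]
  refine Finset.card_le_card_of_injOn
    (fun x => ⟨insert {x.2.1, x.2.2} ((x.1.erase {x.2.1}).erase {x.2.2}), x.2⟩) ?_ ?_
  · rintro ⟨Q, u, v⟩ hx
    rw [Finset.mem_coe, Finset.mem_sigma] at hx
    obtain ⟨hQ, hx⟩ := hx
    dsimp only at hQ hx
    unfold src at hx
    rw [Finset.mem_filter] at hx
    obtain ⟨-, h1, h2, h3, h4⟩ := hx
    rw [Finset.mem_coe, Finset.mem_sigma]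
    refine ⟨mem_Om.2 (merge_good (mem_Om.1 hQ) h1 h2 h3 h4).1, ?_⟩
    unfold tgt
    rw [Finset.mem_filter]
    exact ⟨Finset.mem_univ _, h1, Finset.mem_insert_self _ _⟩
  · rintro ⟨Q, u, v⟩ hx ⟨Q', u', v'⟩ hx' heq
    rw [Finset.mem_coe, Finset.mem_sigma] at hx hx'
    obtain ⟨hQ, hx⟩ := hx
    obtain ⟨hQ', hx'⟩ := hx'
    dsimp only at hQ hx hQ' hx' heq
    unfold src at hx hx'
    rw [Finset.mem_filter] at hx hx'
    obtain ⟨-, h1, h2, h3, h4⟩ := hx
    obtain ⟨-, h1', h2', h3', h4'⟩ := hx'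
    rw [Sigma.mk.injEq] at heq
    obtain ⟨e1, e2⟩ := heq
    have e2 := eq_of_heq e2
    rw [Prod.mk.injEq] at e2
    obtain ⟨e2, e3⟩ := e2
    subst e2
    subst e3
    dsimp only at h1 h2 h3 h4 h1' h2' h3' h4'
    have n1 := (merge_good (mem_Om.1 hQ) h1 h2 h3 h4).2
    have n2 := (merge_good (mem_Om.1 hQ') h1' h2' h3' h4').2
    have e5 : (Q.erase {u}).erase {v} = (Q'.erase {u}).erase {v} := by
      rw [← Finset.erase_insert n1, ← Finset.erase_insert n2, e1]
    have m1 : ({v} : Finset (Fin n)) ∈ Q.erase {u} := by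
      rw [Finset.mem_erase]
      exact ⟨fun h => h1 (Finset.singleton_injective h).symm, h3⟩
    have m2 : ({v} : Finset (Fin n)) ∈ Q'.erase {u} := by
      rw [Finset.mem_erase]
      exact ⟨fun h => h1 (Finset.singleton_injective h).symm, h3'⟩
    have e6 : Q.erase {u} = Q'.erase {u} := by
      rw [← Finset.insert_erase m1, ← Finset.insert_erase m2, e5]
    have e7 : Q = Q' := by
      rw [← Finset.insert_erase h2, ← Finset.insert_erase h2', e6]
    subst e7
    rfl

theorem tgt_card {E : Finset (Finset (Fin n))} {m : ℕ} {P : Finset (Finset (Fin n))}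
    (hP : Good E m P) : ((tgt P).card : ℤ) ≤ 2 * (n - m) := by
  classical
  have h1 : tgt P ⊆ P.biUnion (fun B => if B.card = 2 then B.offDiag else ∅) := by
    rintro ⟨u, v⟩ hx
    unfold tgt at hx
    rw [Finset.mem_filter] at hx
    obtain ⟨-, h1, h2⟩ := hx
    dsimp only at h1 h2
    rw [Finset.mem_biUnion]
    refine ⟨{u, v}, h2, ?_⟩
    rw [if_pos (Finset.card_pair h1), Finset.mem_offDiag]
    exact ⟨Finset.mem_insert_self _ _, Finset.mem_insert_of_mem (Finset.mem_singleton_self _), h1⟩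
  have h2 := (Finset.card_le_card h1).trans Finset.card_biUnion_le
  have h3 : ((∑ B ∈ P, (if B.card = 2 then B.offDiag else ∅ : Finset (Fin n × Fin n)).card : ℕ) : ℤ)
      ≤ ∑ B ∈ P, (2 * (B.card : ℤ) - 2) := by
    rw [Nat.cast_sum]
    refine Finset.sum_le_sum fun B hB => ?_
    have h4 : 1 ≤ B.card := Finset.card_pos.2 (hP.2.1 B hB)
    split_ifs with h
    · rw [Finset.offDiag_card, h]; norm_num
    · rw [Finset.card_empty]; push_cast; omega
  have h5 : ∑ B ∈ P, (2 * (B.card : ℤ) - 2) = 2 * (n - m) := by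
    rw [Finset.sum_sub_distrib, ← Finset.mul_sum, ← Nat.cast_sum, sum_card hP, Finset.sum_const,
      hP.1, nsmul_eq_mul]
    ring
  calc ((tgt P).card : ℤ) ≤ ((∑ B ∈ P, (if B.card = 2 then B.offDiag else ∅ :
        Finset (Fin n × Fin n)).card : ℕ) : ℤ) := by exact_mod_cast h2
    _ ≤ _ := h3
    _ = _ := h5

open Classical in
theorem src_card {E : Finset (Finset (Fin n))} {m d : ℕ} {Q : Finset (Finset (Fin n))}
    (hQ : Good E (m + 1) Q)
    (hd : ∀ u : Fin n, (Finset.univ.filter (fun v => v ≠ u ∧ ∃ e ∈ E, e ⊆ {u, v})).card ≤ d)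
    (hm : n + d ≤ 2 * m + 1) :
    (2 * (m : ℤ) + 2 - n) * (2 * m + 1 - n - d) ≤ ((src E Q).card : ℤ) := by
  set S : Finset (Fin n) := Finset.univ.filter (fun u => ({u} : Finset (Fin n)) ∈ Q) with hS
  have hs : 2 * (m : ℤ) + 2 - n ≤ S.card := by
    have h1 : (Q.filter (fun B => B.card = 1)).card ≤ S.card := by
      have h2 : Q.filter (fun B => B.card = 1) ⊆ S.image (fun u => ({u} : Finset (Fin n))) := by
        intro B hB
        rw [Finset.mem_filter] at hB
        obtain ⟨u, rfl⟩ := Finset.card_eq_one.1 hB.2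
        exact Finset.mem_image.2 ⟨u, by rw [hS, Finset.mem_filter]; exact ⟨Finset.mem_univ _, hB.1⟩, rfl⟩
      exact (Finset.card_le_card h2).trans Finset.card_image_le
    have h3 : ∑ B ∈ Q, (2 : ℤ) ≤ ∑ B ∈ Q, ((B.card : ℤ) + if B.card = 1 then 1 else 0) := by
      refine Finset.sum_le_sum fun B hB => ?_
      have h4 : 1 ≤ B.card := Finset.card_pos.2 (hQ.2.1 B hB)
      split_ifs with h <;> omega
    rw [Finset.sum_add_distrib, ← Nat.cast_sum, sum_card hQ, Finset.sum_const, hQ.1,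
      ← Finset.sum_filter, Finset.sum_const, nsmul_eq_mul, nsmul_eq_mul] at h3
    push_cast at h3
    have h1' : ((Q.filter (fun B => B.card = 1)).card : ℤ) ≤ S.card := by exact_mod_cast h1
    linarith
  have hcount : S.card * (S.card - 1) ≤ (src E Q).card + S.card * d := by
    have h1 : S.offDiag ⊆ src E Q ∪
        S.biUnion (fun u => (Finset.univ.filter
          (fun v => v ≠ u ∧ ∃ e ∈ E, e ⊆ {u, v})).image (fun v => (u, v))) := by
      rintro ⟨u, v⟩ hx
      rw [Finset.mem_offDiag] at hx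
      obtain ⟨h1, h2, h3⟩ := hx
      dsimp only at h1 h2 h3
      rw [Finset.mem_union]
      by_cases hE : ∃ e ∈ E, e ⊆ ({u, v} : Finset (Fin n))
      · right
        rw [Finset.mem_biUnion]
        refine ⟨u, h1, Finset.mem_image.2 ⟨v, ?_, rfl⟩⟩
        rw [Finset.mem_filter]
        exact ⟨Finset.mem_univ _, Ne.symm h3, hE⟩
      · left
        unfold src
        rw [Finset.mem_filter]
        rw [hS, Finset.mem_filter] at h1 h2
        refine ⟨Finset.mem_univ _, h3, h1.2, h2.2, ?_⟩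
        intro e he hsub
        exact hE ⟨e, he, hsub⟩
    have h2 := (Finset.card_le_card h1).trans (Finset.card_union_le _ _)
    have h3 : (S.biUnion (fun u => (Finset.univ.filter
          (fun v => v ≠ u ∧ ∃ e ∈ E, e ⊆ {u, v})).image (fun v => (u, v)))).card ≤ S.card * d := by
      refine Finset.card_biUnion_le_card_mul _ _ _ fun u _ => ?_
      exact Finset.card_image_le.trans (hd u)
    rw [Finset.offDiag_card] at h2
    have h4 : S.card * (S.card - 1) = S.card * S.card - S.card := by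
      rw [Nat.mul_sub, mul_one]
    rw [h4]
    omega
  have hpos : 1 ≤ S.card := by
    have : (1 : ℤ) ≤ 2 * (m : ℤ) + 2 - n := by
      have : (n : ℤ) + d ≤ 2 * m + 1 := by exact_mod_cast hm
      have hd0 : (0 : ℤ) ≤ d := by positivity
      linarith
    have := this.trans hs
    exact_mod_cast this
  have hcount' : (S.card : ℤ) * (S.card - 1 - d) ≤ (src E Q).card := by
    have h1 : ((S.card * (S.card - 1) : ℕ) : ℤ) ≤ (((src E Q).card + S.card * d : ℕ) : ℤ) := by
      exact_mod_cast hcount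
    push_cast [Nat.cast_sub hpos] at h1
    linarith
  have h0 : (0 : ℤ) ≤ 2 * (m : ℤ) + 1 - n - d := by
    have : (n : ℤ) + d ≤ 2 * m + 1 := by exact_mod_cast hm
    linarith
  have hd0 : (0 : ℤ) ≤ d := by positivity
  calc (2 * (m : ℤ) + 2 - n) * (2 * m + 1 - n - d)
      ≤ (S.card : ℤ) * (2 * m + 1 - n - d) := mul_le_mul_of_nonneg_right hs h0
    _ ≤ (S.card : ℤ) * (S.card - 1 - d) := by
        apply mul_le_mul_of_nonneg_left _ (by positivity)
        linarith
    _ ≤ _ := hcount'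

open Classical in
theorem step (E : Finset (Finset (Fin n))) (m d : ℕ)
    (hd : ∀ u : Fin n, (Finset.univ.filter (fun v => v ≠ u ∧ ∃ e ∈ E, e ⊆ {u, v})).card ≤ d)
    (hmn : m + 1 ≤ n) (hm : n + d ≤ 2 * m + 1)
    (h : 2 * ((n : ℤ) - m) ≤ (2 * (m : ℤ) + 2 - n) * (2 * m + 1 - n - d)) :
    (Om E (m + 1)).card ≤ (Om E m).card := by
  have h1 := double_count E m
  have h2 : ((Om E (m + 1)).card : ℤ) * (2 * (n - m)) ≤
      ((∑ Q ∈ Om E (m + 1), (src E Q).card : ℕ) : ℤ) := by
    rw [Nat.cast_sum, ← nsmul_eq_mul]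
    refine Finset.card_nsmul_le_sum _ _ _ fun Q hQ => ?_
    exact h.trans (src_card (mem_Om.1 hQ) hd hm)
  have h3 : ((∑ P ∈ Om E m, (tgt P).card : ℕ) : ℤ) ≤ ((Om E m).card : ℤ) * (2 * (n - m)) := by
    rw [Nat.cast_sum, ← nsmul_eq_mul]
    refine Finset.sum_le_card_nsmul _ _ _ fun P hP => ?_
    exact tgt_card (mem_Om.1 hP)
  have h4 : ((∑ Q ∈ Om E (m + 1), (src E Q).card : ℕ) : ℤ) ≤
      ((∑ P ∈ Om E m, (tgt P).card : ℕ) : ℤ) := by exact_mod_cast h1
  have h5 : (0 : ℤ) < 2 * (n - m) := by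
    have : (m : ℤ) + 1 ≤ n := by exact_mod_cast hmn
    linarith
  have h6 := le_of_mul_le_mul_right ((h2.trans h4).trans h3) h5
  exact_mod_cast h6

open Classical in
/-- Let `E` be a hypergraph on `n` vertices in which every vertex `u` has at most `d` vertices `v ≠ u`
such that `{u,v}` contains an edge (`d = 0` when all edges have at least 3 vertices), and let `b m` be
the number of partitions of the vertices into `m` nonempty blocks none of which contains an edge.
If `n + d ≤ 2k+1` and `2(n-k) ≤ (2k+2-n)(2k+1-n-d)` then `b k ≥ b (k+1) ≥ ... ≥ b n`. -/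
theorem result :
    ∀ (n : ℕ) (E : Finset (Finset (Fin n))) (b : ℕ → ℕ),
      (∀ m : ℕ, b m = Set.ncard {P : Finset (Finset (Fin n)) |
          P.card = m ∧
          (∀ B ∈ P, B.Nonempty) ∧
          (∀ B ∈ P, ∀ C ∈ P, B ≠ C → Disjoint B C) ∧
          (∀ v : Fin n, ∃ B ∈ P, v ∈ B) ∧
          (∀ B ∈ P, ∀ e ∈ E, ¬ e ⊆ B)}) →
      ∀ d : ℕ,
      (∀ u : Fin n, (Finset.univ.filter (fun v => v ≠ u ∧ ∃ e ∈ E, e ⊆ {u, v})).card ≤ d) →
      ∀ k : ℕ, n + d ≤ 2 * k + 1 →
        2 * ((n : ℤ) - k) ≤ (2 * (k : ℤ) + 2 - n) * (2 * k + 1 - n - d) →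
        ∀ i j : ℕ, k ≤ i → i ≤ j → j ≤ n → b j ≤ b i := by
  intro n E b hb d hd k hk1 hk2 i j hi hij hj
  have hb' : ∀ m, b m = (Om E m).card := by
    intro m
    rw [hb m, ← Set.ncard_coe_finset]
    congr 1
    ext P
    rw [Finset.mem_coe, mem_Om]
    rfl
  induction j, hij using Nat.le_induction with
  | base => exact le_rfl
  | succ j hij ih =>
    refine le_trans ?_ (ih (by omega))
    rw [hb', hb']
    refine step E j d hd hj (by omega) ?_
    have h1 : (k : ℤ) ≤ j := by exact_mod_cast hi.trans hij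
    have h2 : (n : ℤ) + d ≤ 2 * k + 1 := by exact_mod_cast hk1
    have h3 : (0 : ℤ) ≤ 2 * (k : ℤ) + 1 - n - d := by linarith
    have hd0 : (0 : ℤ) ≤ d := by positivity
    have h4 : (0 : ℤ) ≤ 2 * (k : ℤ) + 2 - n := by linarith
    calc 2 * ((n : ℤ) - j) ≤ 2 * ((n : ℤ) - k) := by linarith
      _ ≤ (2 * (k : ℤ) + 2 - n) * (2 * k + 1 - n - d) := hk2
      _ ≤ (2 * (j : ℤ) + 2 - n) * (2 * j + 1 - n - d) := by
        apply mul_le_mul <;> linarith

end Pool.Agent.Results.MP_e96806_co.FinalFall
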