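import Mathlib

set_option autoImplicit false

namespace Pool.Agent.Results.MP_e96806_co.InitialRise

variable {n : ℕ}

/-- `P` is a partition of `Fin n` into `m` nonempty blocks, none containing a member of `E`. -/
def Good (E : Finset (Finset (Fin n))) (m : ℕ) (P : Finset (Finset (Fin n))) : Prop :=
  P.card = m ∧
  (∀ B ∈ P, B.Nonempty) ∧
  (∀ B ∈ P, ∀ C ∈ P, B ≠ C → Disjoint B C) ∧
  (∀ v : Fin n, ∃ B ∈ P, v ∈ B) ∧
  (∀ B ∈ P, ∀ e ∈ E, ¬ e ⊆ B)

open Classical in
noncomputable def Om (E : Finset (Finset (Fin n))) (m : ℕ) : Finset (Finset (Finset (Fin n))) :=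
  Finset.univ.filter (fun P => Good E m P)

theorem mem_Om {E : Finset (Finset (Fin n))} {m : ℕ} {P : Finset (Finset (Fin n))} :
    P ∈ Om E m ↔ Good E m P := by
  classical
  unfold Om
  simp

theorem not_mem_of_sub {E : Finset (Finset (Fin n))} {m : ℕ} {P : Finset (Finset (Fin n))}
    (hP : Good E m P) {B X : Finset (Fin n)} (hB : B ∈ P) (hX : X ⊆ B) (hne : X.Nonempty) :
    X ∉ P.erase B := by
  classical
  intro h
  obtain ⟨h1, h2⟩ := Finset.mem_erase.1 h
  have h3 := hP.2.2.1 X h2 B hB h1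
  obtain ⟨x, hx⟩ := hne
  exact Finset.disjoint_left.1 h3 hx (hX hx)

theorem split_good {E : Finset (Finset (Fin n))} {m : ℕ} {P : Finset (Finset (Fin n))}
    (hP : Good E m P) {B A : Finset (Fin n)} (hB : B ∈ P) (hA : A ⊆ B) (hAn : A.Nonempty)
    (hAB : A ≠ B) :
    Good E (m + 1) (insert A (insert (B \ A) (P.erase B))) ∧ A ≠ B \ A ∧ (B \ A).Nonempty := by
  classical
  have hDn : (B \ A).Nonempty := by
    rw [Finset.sdiff_nonempty]
    intro h
    exact hAB (Finset.Subset.antisymm hA h)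
  have hne : A ≠ B \ A := by
    intro h
    obtain ⟨x, hx⟩ := hAn
    have := hx
    rw [h, Finset.mem_sdiff] at this
    exact this.2 hx
  have hD : B \ A ⊆ B := Finset.sdiff_subset
  have n1 := not_mem_of_sub hP hB hA hAn
  have n2 := not_mem_of_sub hP hB hD hDn
  have hdis : ∀ X ⊆ B, ∀ C ∈ P.erase B, Disjoint X C := by
    intro X hX C hC
    obtain ⟨h1, h2⟩ := Finset.mem_erase.1 hC
    exact Finset.disjoint_of_subset_left hX (hP.2.2.1 B hB C h2 (Ne.symm h1))
  have hAD : Disjoint A (B \ A) := Finset.disjoint_sdiff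
  refine ⟨⟨?_, ?_, ?_, ?_, ?_⟩, hne, hDn⟩
  · rw [Finset.card_insert_of_notMem, Finset.card_insert_of_notMem n2, Finset.card_erase_of_mem hB,
      hP.1]
    · have : 0 < P.card := Finset.card_pos.2 ⟨B, hB⟩
      rw [hP.1] at this
      omega
    · rw [Finset.mem_insert, not_or]
      exact ⟨hne, n1⟩
  · intro C hC
    rcases Finset.mem_insert.1 hC with rfl | hC
    · exact hAn
    · rcases Finset.mem_insert.1 hC with rfl | hC
      · exact hDn
      · exact hP.2.1 C (Finset.mem_of_mem_erase hC)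
  · intro C hC D hD' hCD
    rcases Finset.mem_insert.1 hC with hC | hC
    · rcases Finset.mem_insert.1 hD' with hD' | hD'
      · exact absurd (hC.trans hD'.symm) hCD
      · rcases Finset.mem_insert.1 hD' with hD' | hD'
        · rw [hC, hD']; exact hAD
        · rw [hC]; exact hdis A hA D hD'
    · rcases Finset.mem_insert.1 hC with hC | hC
      · rcases Finset.mem_insert.1 hD' with hD' | hD'
        · rw [hC, hD']; exact hAD.symm
        · rcases Finset.mem_insert.1 hD' with hD' | hD'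
          · exact absurd (hC.trans hD'.symm) hCD
          · rw [hC]; exact hdis _ hD D hD'
      · rcases Finset.mem_insert.1 hD' with hD' | hD'
        · rw [hD']; exact (hdis A hA C hC).symm
        · rcases Finset.mem_insert.1 hD' with hD' | hD'
          · rw [hD']; exact (hdis _ hD C hC).symm
          · exact hP.2.2.1 C (Finset.mem_of_mem_erase hC) D (Finset.mem_of_mem_erase hD') hCD
  · intro v
    obtain ⟨C, hC, hv⟩ := hP.2.2.2.1 v
    by_cases h : C = B
    · subst h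
      by_cases hvA : v ∈ A
      · exact ⟨A, Finset.mem_insert_self _ _, hvA⟩
      · exact ⟨C \ A, Finset.mem_insert_of_mem (Finset.mem_insert_self _ _),
          Finset.mem_sdiff.2 ⟨hv, hvA⟩⟩
    · exact ⟨C, Finset.mem_insert_of_mem (Finset.mem_insert_of_mem
        (Finset.mem_erase.2 ⟨h, hC⟩)), hv⟩
  · intro C hC e he hsub
    rcases Finset.mem_insert.1 hC with rfl | hC
    · exact hP.2.2.2.2 B hB e he (hsub.trans hA)
    · rcases Finset.mem_insert.1 hC with rfl | hC
      · exact hP.2.2.2.2 B hB e he (hsub.trans hD)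
      · exact hP.2.2.2.2 C (Finset.mem_of_mem_erase hC) e he hsub

theorem double_count (E : Finset (Finset (Fin n))) (m : ℕ) :
    ∑ P ∈ Om E m, ∑ B ∈ P, (2 ^ B.card - 2) ≤
      (Om E (m + 1)).card * ((m + 1) * (m + 1) - (m + 1)) := by
  classical
  have hsrc : ((Om E m).sigma (fun P => P.sigma (fun B => (B.powerset.erase ∅).erase B))).card =
      ∑ P ∈ Om E m, ∑ B ∈ P, (2 ^ B.card - 2) := by
    rw [Finset.card_sigma]
    refine Finset.sum_congr rfl fun P hP => ?_
    rw [Finset.card_sigma]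
    refine Finset.sum_congr rfl fun B hB => ?_
    have hBn : B.Nonempty := (mem_Om.1 hP).2.1 B hB
    rw [Finset.card_erase_of_mem, Finset.card_erase_of_mem (Finset.empty_mem_powerset B),
      Finset.card_powerset]
    · rfl
    · rw [Finset.mem_erase]
      exact ⟨hBn.ne_empty, Finset.mem_powerset_self B⟩
  have htgt : ((Om E (m + 1)).sigma (fun Q => Q.offDiag)).card =
      (Om E (m + 1)).card * ((m + 1) * (m + 1) - (m + 1)) := by
    rw [Finset.card_sigma, Finset.sum_congr rfl (g := fun _ => ((m + 1) * (m + 1) - (m + 1)))]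
    · rw [Finset.sum_const, smul_eq_mul]
    · intro Q hQ
      rw [Finset.offDiag_card, (mem_Om.1 hQ).1]
  rw [← hsrc, ← htgt]
  refine Finset.card_le_card_of_injOn
    (fun x => ⟨insert x.2.2 (insert (x.2.1 \ x.2.2) (x.1.erase x.2.1)), (x.2.2, x.2.1 \ x.2.2)⟩)
    ?_ ?_
  · rintro ⟨P, B, A⟩ hx
    rw [Finset.mem_coe, Finset.mem_sigma, Finset.mem_sigma, Finset.mem_erase, Finset.mem_erase,
      Finset.mem_powerset] at hx
    obtain ⟨hP, hB, hAB, hA0, hA⟩ := hx
    obtain ⟨h1, h2, h3⟩ := split_good (mem_Om.1 hP) hB hA (Finset.nonempty_iff_ne_empty.2 hA0) hAB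
    rw [Finset.mem_coe, Finset.mem_sigma]
    refine ⟨mem_Om.2 h1, ?_⟩
    rw [Finset.mem_offDiag]
    exact ⟨Finset.mem_insert_self _ _, Finset.mem_insert_of_mem (Finset.mem_insert_self _ _), h2⟩
  · rintro ⟨P, B, A⟩ hx ⟨P', B', A'⟩ hx' heq
    rw [Finset.mem_coe, Finset.mem_sigma, Finset.mem_sigma, Finset.mem_erase, Finset.mem_erase,
      Finset.mem_powerset] at hx hx'
    obtain ⟨hP, hB, hAB, hA0, hA⟩ := hx
    obtain ⟨hP', hB', hAB', hA0', hA'⟩ := hx'
    dsimp only at hP hB hAB hA0 hA hP' hB' hAB' hA0' hA' heq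
    rw [Sigma.mk.injEq] at heq
    obtain ⟨e1, e2⟩ := heq
    have e2 := eq_of_heq e2
    rw [Prod.mk.injEq] at e2
    obtain ⟨e2, e3⟩ := e2
    subst e2
    have e4 : B = B' := by
      rw [← Finset.union_sdiff_of_subset hA, ← Finset.union_sdiff_of_subset hA', e3]
    subst e4
    have hAn := Finset.nonempty_iff_ne_empty.2 hA0
    have s1 := split_good (mem_Om.1 hP) hB hA hAn hAB
    have q1 := not_mem_of_sub (mem_Om.1 hP) hB hA hAn
    have q2 := not_mem_of_sub (mem_Om.1 hP) hB Finset.sdiff_subset s1.2.2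
    have q1' := not_mem_of_sub (mem_Om.1 hP') hB' hA hAn
    have q2' := not_mem_of_sub (mem_Om.1 hP') hB' Finset.sdiff_subset s1.2.2
    have e5 : insert (B \ A) (P.erase B) = insert (B \ A) (P'.erase B) := by
      have i1 : A ∉ insert (B \ A) (P.erase B) := by
        rw [Finset.mem_insert, not_or]; exact ⟨s1.2.1, q1⟩
      have i2 : A ∉ insert (B \ A) (P'.erase B) := by
        rw [Finset.mem_insert, not_or]; exact ⟨s1.2.1, q1'⟩
      rw [← Finset.erase_insert i1, ← Finset.erase_insert i2, e1]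
    have e6 : P.erase B = P'.erase B := by
      rw [← Finset.erase_insert q2, ← Finset.erase_insert q2', e5]
    have e7 : P = P' := by
      rw [← Finset.insert_erase hB, ← Finset.insert_erase hB', e6]
    subst e7
    rfl

theorem sum_card {E : Finset (Finset (Fin n))} {m : ℕ} {P : Finset (Finset (Fin n))}
    (hP : Good E m P) : ∑ B ∈ P, B.card = n := by
  classical
  have h1 : (P.biUnion id).card = ∑ B ∈ P, B.card := by
    rw [Finset.card_biUnion]
    · rfl
    · intro B hB C hC hBC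
      exact hP.2.2.1 B hB C hC hBC
  have h2 : P.biUnion id = Finset.univ := by
    ext v
    simp only [Finset.mem_biUnion, id, Finset.mem_univ, iff_true]
    exact hP.2.2.2.1 v
  rw [← h1, h2, Finset.card_univ, Fintype.card_fin]

theorem two_pow_tangent (s t : ℕ) : (2 : ℤ) ^ t * (1 + s - t) ≤ 2 ^ s := by
  rcases Nat.lt_or_ge s t with h | h
  · have h1 : (1 + s - t : ℤ) ≤ 0 := by omega
    have h2 : (0 : ℤ) < 2 ^ t := by positivity
    have h3 : (0 : ℤ) < 2 ^ s := by positivity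
    nlinarith
  · obtain ⟨d, rfl⟩ := Nat.exists_eq_add_of_le h
    have h1 : (d : ℤ) + 1 ≤ 2 ^ d := by
      have := Nat.lt_pow_self (n := d) (a := 2) (by norm_num)
      exact_mod_cast this
    have h2 : (0 : ℤ) < 2 ^ t := by positivity
    rw [pow_add]
    push_cast
    have h3 : (1 + ((t : ℤ) + d) - t) = d + 1 := by ring
    rw [h3]
    exact mul_le_mul_of_nonneg_left h1 h2.le

theorem lower {E : Finset (Finset (Fin n))} {m : ℕ} {P : Finset (Finset (Fin n))}
    (hP : Good E m P) (t : ℕ) :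
    (2 : ℤ) ^ t * (m + n - m * t) - 2 * m ≤ ((∑ B ∈ P, (2 ^ B.card - 2) : ℕ) : ℤ) := by
  have h1 : ((∑ B ∈ P, (2 ^ B.card - 2) : ℕ) : ℤ) = ∑ B ∈ P, ((2 : ℤ) ^ B.card - 2) := by
    rw [Nat.cast_sum]
    refine Finset.sum_congr rfl fun B hB => ?_
    have h2 : 1 ≤ B.card := Finset.card_pos.2 (hP.2.1 B hB)
    have h3 : 2 ≤ 2 ^ B.card := by
      calc 2 = 2 ^ 1 := by norm_num
        _ ≤ 2 ^ B.card := Nat.pow_le_pow_right (by norm_num) h2
    rw [Nat.cast_sub h3]
    push_cast
    ring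
  have h4 : ∑ B ∈ P, ((2 : ℤ) ^ t * (1 + B.card - t) - 2) ≤ ∑ B ∈ P, ((2 : ℤ) ^ B.card - 2) :=
    Finset.sum_le_sum fun B _ => sub_le_sub_right (two_pow_tangent _ _) 2
  have h5 : ∑ B ∈ P, ((2 : ℤ) ^ t * (1 + B.card - t) - 2) =
      (2 : ℤ) ^ t * (m + n - m * t) - 2 * m := by
    rw [Finset.sum_sub_distrib, ← Finset.mul_sum, Finset.sum_sub_distrib, Finset.sum_add_distrib]
    have h6 : ∑ B ∈ P, (B.card : ℤ) = n := by
      rw [← Nat.cast_sum, sum_card hP]
    rw [h6]
    simp only [Finset.sum_const, hP.1]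
    simp only [nsmul_eq_mul, mul_one]
    ring
  rw [h1, ← h5]
  exact h4

theorem step (E : Finset (Finset (Fin n))) (m t : ℕ) (hm : 1 ≤ m)
    (h : (m : ℤ) * (m + 3) ≤ 2 ^ t * (m + n - m * t)) :
    (Om E m).card ≤ (Om E (m + 1)).card := by
  have h1 := double_count E m
  have h2 : ((Om E m).card : ℤ) * (m * (m + 1)) ≤
      ((∑ P ∈ Om E m, ∑ B ∈ P, (2 ^ B.card - 2) : ℕ) : ℤ) := by
    rw [Nat.cast_sum, ← nsmul_eq_mul]
    refine Finset.card_nsmul_le_sum _ _ _ fun P hP => ?_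
    have := lower (mem_Om.1 hP) t
    nlinarith
  have h3 : ((∑ P ∈ Om E m, ∑ B ∈ P, (2 ^ B.card - 2) : ℕ) : ℤ) ≤
      ((Om E (m + 1)).card : ℤ) * (m * (m + 1)) := by
    have h4 : (m + 1) * (m + 1) - (m + 1) = m * (m + 1) := by
      rw [← Nat.sub_one_mul]; simp
    rw [h4] at h1
    exact_mod_cast h1
  have h5 := h2.trans h3
  have h6 : (0 : ℤ) < m * (m + 1) := by positivity
  have h7 := le_of_mul_le_mul_right h5 h6
  exact_mod_cast h7

/-- For every hypergraph `E` on `n` vertices, with `b m` the number of partitions of the vertices into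
`m` nonempty blocks none of which contains an edge: `b m ≤ b (m+1)` whenever
`m(m+3) ≤ 2^t (m+n-mt)` for some `t`; in particular `b 1 ≤ b 2 ≤ ... ≤ b (k+1)` whenever
`k t ≤ n` and `k+3 ≤ 2^t`. -/
theorem result :
    ∀ (n : ℕ) (E : Finset (Finset (Fin n))) (b : ℕ → ℕ),
      (∀ m : ℕ, b m = Set.ncard {P : Finset (Finset (Fin n)) |
          P.card = m ∧
          (∀ B ∈ P, B.Nonempty) ∧
          (∀ B ∈ P, ∀ C ∈ P, B ≠ C → Disjoint B C) ∧
          (∀ v : Fin n, ∃ B ∈ P, v ∈ B) ∧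
          (∀ B ∈ P, ∀ e ∈ E, ¬ e ⊆ B)}) →
      (∀ m t : ℕ, 1 ≤ m → (m : ℤ) * (m + 3) ≤ 2 ^ t * (m + n - m * t) → b m ≤ b (m + 1)) ∧
      (∀ k t : ℕ, k * t ≤ n → k + 3 ≤ 2 ^ t →
        ∀ i j : ℕ, 1 ≤ i → i ≤ j → j ≤ k + 1 → b i ≤ b j) := by
  intro n E b hb
  have hb' : ∀ m, b m = (Om E m).card := by
    intro m
    rw [hb m, ← Set.ncard_coe_finset]
    congr 1
    ext P
    rw [Finset.mem_coe, mem_Om]
    rfl
  have h1 : ∀ m t : ℕ, 1 ≤ m → (m : ℤ) * (m + 3) ≤ 2 ^ t * (m + n - m * t) → b m ≤ b (m + 1) := by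
    intro m t hm h
    rw [hb', hb']
    exact step E m t hm h
  refine ⟨h1, ?_⟩
  intro k t hkt hk i j hi hij hj
  induction j, hij using Nat.le_induction with
  | base => exact le_rfl
  | succ j hij ih =>
    refine (ih (by omega)).trans (h1 j t (by omega) ?_)
    have h2 : j * t ≤ n := (Nat.mul_le_mul_right t (by omega)).trans hkt
    have h3 : (j : ℤ) + 3 ≤ 2 ^ t := by
      have : j + 3 ≤ 2 ^ t := by omega
      exact_mod_cast this
    have h4 : (j : ℤ) * t ≤ n := by exact_mod_cast h2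
    have h5 : (0 : ℤ) ≤ j := by positivity
    have h6 : (0 : ℤ) < 2 ^ t := by positivity
    nlinarith [mul_le_mul_of_nonneg_left h3 h5, mul_nonneg h6.le (sub_nonneg.2 h4)]

end Pool.Agent.Results.MP_e96806_co.InitialRise
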